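import Mathlib
import Pool.Agent.R354.LCone
import Pool.Agent.W472.AC.EMeas2

/-!
# Short linear recurrences of digits, each number in its own base
-/

set_option autoImplicit false

namespace Pool.Agent.K3lead.A49.Multi

open Finset Polynomial
open Pool.Agent.H831R3.LC (W dig dig_abs)
open Pool.Agent.W47.JL
open Pool.Agent.R354.LC

/-- a simultaneous measure of irrationality for the coefficients of a polynomial with root `e` -/
theorem meas (n : ℕ) (c : Fin (n + 1) → ℤ) (hc : c 0 ≠ 0) (T η : ℝ) (hη : 0 < η) :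
    ∃ c0 : ℝ, 0 < c0 ∧ ∀ y : Fin n → ℝ, (∀ j, |y j| ≤ T) →
      (c 0 : ℝ) * Real.exp 1 ^ n = ∑ j : Fin n, (c j.succ : ℝ) * y j * Real.exp 1 ^ (j : ℕ) →
      Pool.Agent.W47.JL.Meas n y (n + 1 + η) c0 0 := by
  obtain ⟨c1, hc1, hm⟩ := Pool.Agent.W472.AC.e_measP n η hη
  obtain ⟨M, hM⟩ : ∃ M : ℝ, M = (∑ j, |(c j : ℝ)|) * (|T| + 1) := ⟨_, rfl⟩
  have he1 : 1 ≤ Real.exp 1 := Real.one_le_exp zero_le_one
  have hc0R : (1 : ℝ) ≤ |(c 0 : ℝ)| := by exact_mod_cast Int.one_le_abs hc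
  have hcj : ∀ j, |(c j : ℝ)| ≤ ∑ j, |(c j : ℝ)| := fun j =>
    Finset.single_le_sum (f := fun j => |(c j : ℝ)|) (fun _ _ => abs_nonneg _) (mem_univ j)
  have hs1 : (1 : ℝ) ≤ ∑ j, |(c j : ℝ)| := hc0R.trans (hcj 0)
  have hT1 : (1 : ℝ) ≤ |T| + 1 := by linarith [abs_nonneg T]
  have hM1 : 1 ≤ M := by
    rw [hM]
    nlinarith
  obtain ⟨E, hE⟩ : ∃ E : ℝ, E = (∑ j, |(c j : ℝ)|) * Real.exp 1 ^ n := ⟨_, rfl⟩
  have hE1 : 1 ≤ E := by
    rw [hE]
    have : 1 ≤ Real.exp 1 ^ n := one_le_pow₀ he1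
    nlinarith
  have hMp : 0 < M ^ ((n : ℝ) + η) := Real.rpow_pos_of_pos (by linarith) _
  obtain ⟨c0, hc0⟩ : ∃ c0 : ℝ, c0 = min 1 (c1 / (2 * E * M ^ ((n : ℝ) + η))) := ⟨_, rfl⟩
  have hc00 : 0 < c0 := by
    rw [hc0]
    exact lt_min one_pos (by positivity)
  refine ⟨c0, hc00, fun y hy hrel => ?_⟩
  intro q hq p
  by_contra hcon
  push Not at hcon
  have hqR : (1 : ℝ) ≤ q := by exact_mod_cast hq
  have hq0 : (0 : ℝ) < q := by linarith
  have hexp : (n : ℝ) + 1 + η - 1 = n + η := by ring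
  simp only [Real.rpow_zero, mul_one, hexp] at hcon
  obtain ⟨Q, hQ⟩ : ∃ Q : ℝ, Q = (q : ℝ) ^ ((n : ℝ) + η) := ⟨_, rfl⟩
  have hQ1 : 1 ≤ Q := by
    rw [hQ]
    exact Real.one_le_rpow hqR (by positivity)
  have hδ : ∀ j, |q * y j - p j| < c0 / Q := by
    intro j
    rw [lt_div_iff₀ (by linarith), mul_comm]
    have := hcon j
    rwa [← hQ] at this
  have hc0le1 : c0 ≤ 1 := by rw [hc0]; exact min_le_left _ _
  have hδ1 : ∀ j, |q * y j - p j| ≤ 1 := fun j =>
    (hδ j).le.trans ((div_le_self hc00.le hQ1).trans hc0le1)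
  have hp : ∀ j, |(p j : ℝ)| ≤ q * (|T| + 1) := by
    intro j
    have h1 : (p j : ℝ) = q * y j - (q * y j - p j) := by ring
    rw [h1]
    refine (abs_sub _ _).trans ?_
    rw [abs_mul, abs_of_pos hq0]
    have h2 := (hy j).trans (le_abs_self T)
    have h3 := hδ1 j
    nlinarith
  -- the polynomial
  obtain ⟨P, hP⟩ : ∃ P : ℤ[X], P = C (c 0 * q) * X ^ n -
    ∑ j : Fin n, C (c j.succ * p j) * X ^ (j : ℕ) := ⟨_, rfl⟩
  have hcoef : ∀ i, P.coeff i = (if i = n then c 0 * (q : ℤ) else 0) -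
      (if h : i < n then c (⟨i, h⟩ : Fin n).succ * p ⟨i, h⟩ else 0) := by
    intro i
    rw [hP, coeff_sub, coeff_C_mul_X_pow, finsetSum_coeff]
    congr 1
    by_cases h : i < n
    · rw [dif_pos h, Finset.sum_eq_single (⟨i, h⟩ : Fin n)]
      · rw [coeff_C_mul_X_pow, if_pos rfl]
      · intro j _ hj
        rw [coeff_C_mul_X_pow, if_neg]
        intro h2
        exact hj (Fin.ext h2.symm)
      · intro h2
        exact absurd (mem_univ _) h2
    · rw [dif_neg h]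
      refine Finset.sum_eq_zero fun j _ => ?_
      rw [coeff_C_mul_X_pow, if_neg]
      intro h2
      exact h (h2 ▸ j.2)
  have hPn : P.coeff n = c 0 * q := by
    rw [hcoef, if_pos rfl, dif_neg (lt_irrefl n), sub_zero]
  have hP0 : P ≠ 0 := by
    intro h0
    rw [h0, coeff_zero] at hPn
    have h1 : (q : ℤ) ≠ 0 := by exact_mod_cast (by omega : q ≠ 0)
    exact mul_ne_zero hc h1 hPn.symm
  have hPd : P.natDegree ≤ n := by
    rw [natDegree_le_iff_coeff_eq_zero]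
    intro i hi
    rw [hcoef, if_neg (by omega), dif_neg (by omega), sub_zero]
  have hPH : ∀ i, |((P.coeff i : ℤ) : ℝ)| ≤ q * M := by
    intro i
    rw [hcoef]
    by_cases h1 : i = n
    · rw [if_pos h1, dif_neg (by omega), sub_zero]
      push_cast
      rw [abs_mul, abs_of_pos hq0, hM]
      have h2 := hcj 0
      have h3 : |(c 0 : ℝ)| ≤ (∑ j, |(c j : ℝ)|) * (|T| + 1) := by nlinarith
      nlinarith
    · rw [if_neg h1, zero_sub]
      by_cases h2 : i < n
      · rw [dif_pos h2]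
        push_cast
        rw [abs_neg, abs_mul, hM]
        calc |(c (⟨i, h2⟩ : Fin n).succ : ℝ)| * |(p ⟨i, h2⟩ : ℝ)| ≤
            (∑ j, |(c j : ℝ)|) * (q * (|T| + 1)) :=
              mul_le_mul (hcj _) (hp _) (abs_nonneg _) (by linarith)
          _ = _ := by ring
      · rw [dif_neg h2]
        simp only [neg_zero, Int.cast_zero, abs_zero]
        positivity
  have hval : aeval (Real.exp 1) P =
      ∑ j : Fin n, (c j.succ : ℝ) * (q * y j - p j) * Real.exp 1 ^ (j : ℕ) := by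
    rw [hP, map_sub, map_mul, aeval_C, map_pow, aeval_X, map_sum]
    simp only [map_mul, map_pow, aeval_X, algebraMap_int_eq, eq_intCast, map_intCast,
      Int.cast_natCast]
    have h1 : (c 0 : ℝ) * q * Real.exp 1 ^ n =
        ∑ j : Fin n, (q : ℝ) * ((c j.succ : ℝ) * y j * Real.exp 1 ^ (j : ℕ)) := by
      rw [← Finset.mul_sum, ← hrel]
      ring
    rw [h1, ← Finset.sum_sub_distrib]
    exact Finset.sum_congr rfl fun j _ => by ring
  have hsmall : |aeval (Real.exp 1) P| ≤ E * (c0 / Q) := by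
    rw [hval]
    refine (Finset.abs_sum_le_sum_abs _ _).trans ?_
    have h1 : ∀ j : Fin n, |(c j.succ : ℝ) * (q * y j - p j) * Real.exp 1 ^ (j : ℕ)| ≤
        |(c j.succ : ℝ)| * (Real.exp 1 ^ n * (c0 / Q)) := by
      intro j
      rw [abs_mul, abs_mul, abs_of_pos (by positivity : 0 < Real.exp 1 ^ (j : ℕ)), mul_assoc]
      refine mul_le_mul_of_nonneg_left ?_ (abs_nonneg _)
      rw [mul_comm]
      exact mul_le_mul (pow_le_pow_right₀ he1 j.2.le) (hδ j).le (abs_nonneg _) (by positivity)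
    refine (Finset.sum_le_sum fun j _ => h1 j).trans ?_
    rw [← Finset.sum_mul, hE, mul_assoc]
    refine mul_le_mul_of_nonneg_right ?_ (by positivity)
    rw [Fin.sum_univ_succ (fun j : Fin (n + 1) => |(c j : ℝ)|)]
    linarith [abs_nonneg (c 0 : ℝ)]
  have hqM : 1 ≤ (q : ℝ) * M := by nlinarith
  have hfin := hm P hP0 hPd (q * M) hqM hPH
  rw [Real.mul_rpow hq0.le (by linarith), ← hQ] at hfin
  have h9 : c1 ≤ Q * M ^ ((n : ℝ) + η) * (E * (c0 / Q)) :=
    hfin.trans (mul_le_mul_of_nonneg_left hsmall (by positivity))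
  have h10 : Q * M ^ ((n : ℝ) + η) * (E * (c0 / Q)) = M ^ ((n : ℝ) + η) * E * c0 := by
    field_simp
  rw [h10] at h9
  have h11 : c0 ≤ c1 / (2 * E * M ^ ((n : ℝ) + η)) := by rw [hc0]; exact min_le_right _ _
  rw [le_div_iff₀ (by positivity)] at h11
  nlinarith

/-- the main inequality: `J` numbers, each one with its own base, its own length and its own
recurrence -/
theorem multi (μ c0 η : ℝ) (hμ : 1 < μ) (hc0 : 0 < c0) (hη : 0 < η) : ∃ C : ℝ, 0 ≤ C ∧
    ∀ (J : ℕ) (x : Fin J → ℝ), Meas J x μ c0 0 → ∀ (b L m : Fin J → ℕ) (c : Fin J → ℕ → ℚ),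
      (∀ j, 2 ≤ b j) →
      (∀ j i, i + m j < L j → (dig (x j) (b j) (i + m j + 1) : ℚ) =
        ∑ l ∈ range (m j), c j l * (dig (x j) (b j) (i + l + 1) : ℚ)) →
      ∃ j, (L j : ℝ) * Real.log (b j) ≤
        (μ + η) * (∑ i, m i * Real.log (b i)) + C * ∑ i, Real.log (b i) := by
  obtain ⟨ε, hε⟩ : ∃ ε : ℝ, ε = η / μ := ⟨_, rfl⟩
  have hε0 : 0 < ε := by rw [hε]; positivity
  have hμε : μ * (1 + ε) = μ + η := by rw [hε]; field_simp
  obtain ⟨K, hK0, hK⟩ := G_linear ε hε0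
  refine ⟨μ * K + 1 + 2 * |Real.log c0|, by positivity, ?_⟩
  intro J x hx b L m c hb hc
  have happ := fun j => approx_one (x j) (b j) (hb j) (L j) (m j) (c j) (hc j)
  choose q p hq hlq hp using happ
  have hqR : ∀ j, (1 : ℝ) ≤ q j := fun j => by exact_mod_cast hq j
  have hl : ∀ j, 0.69 ≤ Real.log (b j) := by
    intro j
    have hbR : (2 : ℝ) ≤ b j := by exact_mod_cast hb j
    have h1 := Real.log_two_gt_d9
    have h2 := Real.log_le_log (by norm_num : (0 : ℝ) < 2) hbR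
    linarith
  have hb0 : ∀ j, (0 : ℝ) < b j := fun j => by
    have : (2 : ℝ) ≤ b j := by exact_mod_cast hb j
    linarith
  obtain ⟨g, hg⟩ : ∃ g : Fin J → ℝ, g = fun j => G (m j) * Real.log (b j) := ⟨_, rfl⟩
  have hgj : ∀ j, G (m j) * Real.log (b j) = g j := fun j => by rw [hg]
  have hqe : ∀ j, (q j : ℝ) ≤ Real.exp (g j) := by
    intro j
    rw [← Real.exp_log (show (0 : ℝ) < q j by linarith [hqR j]), ← hgj]
    exact Real.exp_le_exp.2 (hlq j)
  obtain ⟨j, hj⟩ := hx (∏ i, q i) (Nat.one_le_iff_ne_zero.2 (Finset.prod_ne_zero_iff.2 fun i _ => by have := hq i; omega))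
    (fun j => p j * ∏ i ∈ univ.erase j, (q i : ℤ))
  refine ⟨j, ?_⟩
  simp only [Real.rpow_zero, mul_one] at hj
  have hprod : ((∏ i, q i : ℕ) : ℝ) = q j * ∏ i ∈ univ.erase j, (q i : ℝ) := by
    push_cast
    rw [Finset.mul_prod_erase univ (fun i => (q i : ℝ)) (mem_univ j)]
  have hQ : ((∏ i, q i : ℕ) : ℝ) ≤ Real.exp (∑ i, g i) := by
    rw [Real.exp_sum]
    push_cast
    exact Finset.prod_le_prod (fun i _ => by linarith [hqR i]) fun i _ => hqe i
  have hQ1 : (1 : ℝ) ≤ ((∏ i, q i : ℕ) : ℝ) := by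
    have : 1 ≤ ∏ i, q i := Nat.one_le_iff_ne_zero.2 (Finset.prod_ne_zero_iff.2 fun i _ => by have := hq i; omega)
    exact_mod_cast this
  have hQj0 : (0 : ℝ) ≤ ∏ i ∈ univ.erase j, (q i : ℝ) :=
    Finset.prod_nonneg fun i _ => by linarith [hqR i]
  have hQj : (∏ i ∈ univ.erase j, (q i : ℝ)) ≤ Real.exp (∑ i ∈ univ.erase j, g i) := by
    rw [Real.exp_sum]
    exact Finset.prod_le_prod (fun i _ => by linarith [hqR i]) fun i _ => hqe i
  have hval : |((∏ i, q i : ℕ) : ℝ) * x j - ((p j * ∏ i ∈ univ.erase j, (q i : ℤ) : ℤ) : ℝ)| =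
      (∏ i ∈ univ.erase j, (q i : ℝ)) * |(q j : ℝ) * x j - p j| := by
    rw [hprod]
    push_cast
    have e : (q j : ℝ) * (∏ i ∈ univ.erase j, (q i : ℝ)) * x j -
        (p j : ℝ) * ∏ i ∈ univ.erase j, (q i : ℝ) =
        (∏ i ∈ univ.erase j, (q i : ℝ)) * ((q j : ℝ) * x j - p j) := by ring
    rw [e, abs_mul, abs_of_nonneg hQj0]
  rw [hval] at hj
  obtain ⟨l, hll⟩ : ∃ l : ℝ, l = Real.log (b j) := ⟨_, rfl⟩
  obtain ⟨E, hE⟩ : ∃ E : ℝ, E = ∑ i, g i := ⟨_, rfl⟩
  have hEj : E = g j + ∑ i ∈ univ.erase j, g i := by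
    rw [hE, Finset.add_sum_erase univ g (mem_univ j)]
  have hdj : |(q j : ℝ) * x j - p j| ≤ Real.exp (g j + l - L j * l) := by
    have h1 : (b j : ℝ) ^ (L j) = Real.exp (L j * l) := by
      rw [hll, ← Real.log_pow, Real.exp_log (pow_pos (hb0 j) _)]
    have h2 := hp j
    rw [h1, ← le_div_iff₀ (Real.exp_pos _), ← Real.exp_sub] at h2
    refine h2.trans (Real.exp_le_exp.2 ?_)
    rw [← hgj, ← hll]
    linarith
  have hd2 : (∏ i ∈ univ.erase j, (q i : ℝ)) * |(q j : ℝ) * x j - p j| ≤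
      Real.exp (E + l - L j * l) := by
    calc (∏ i ∈ univ.erase j, (q i : ℝ)) * |(q j : ℝ) * x j - p j| ≤
          Real.exp (∑ i ∈ univ.erase j, g i) * Real.exp (g j + l - L j * l) :=
          mul_le_mul hQj hdj (abs_nonneg _) (Real.exp_pos _).le
      _ = Real.exp (E + l - L j * l) := by
          rw [← Real.exp_add, hEj]
          congr 1
          ring
  have hpw : ((∏ i, q i : ℕ) : ℝ) ^ (μ - 1) ≤ Real.exp ((μ - 1) * E) := by
    calc ((∏ i, q i : ℕ) : ℝ) ^ (μ - 1) ≤ (Real.exp E) ^ (μ - 1) :=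
          Real.rpow_le_rpow (by linarith) (by rw [hE]; exact hQ) (by linarith)
      _ = Real.exp ((μ - 1) * E) := by
          rw [← Real.exp_mul]; congr 1; ring
  have hfin : c0 ≤ Real.exp (μ * E + l - L j * l) := by
    refine hj.trans ?_
    calc _ ≤ Real.exp ((μ - 1) * E) * Real.exp (E + l - L j * l) :=
          mul_le_mul hpw hd2 (mul_nonneg hQj0 (abs_nonneg _)) (Real.exp_pos _).le
      _ = Real.exp (μ * E + l - L j * l) := by
          rw [← Real.exp_add]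
          congr 1
          ring
  have hlog : Real.log c0 ≤ μ * E + l - L j * l := by
    rw [Real.log_le_iff_le_exp hc0]
    exact hfin
  have hl' : ∀ i, 0 ≤ Real.log (b i) := fun i => by linarith [hl i]
  have hlj : l ≤ ∑ i, Real.log (b i) := by
    rw [hll]
    exact Finset.single_le_sum (f := fun i => Real.log (b i)) (fun i _ => hl' i) (mem_univ j)
  have hE2 : E ≤ (1 + ε) * (∑ i, m i * Real.log (b i)) + K * ∑ i, Real.log (b i) := by
    rw [hE, Finset.mul_sum, Finset.mul_sum, ← Finset.sum_add_distrib]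
    refine Finset.sum_le_sum fun i _ => ?_
    rw [← hgj]
    have := mul_le_mul_of_nonneg_right (hK (m i)) (hl' i)
    linarith
  have hE3 := mul_le_mul_of_nonneg_left hE2 (by linarith : 0 ≤ μ)
  rw [mul_add, ← mul_assoc, hμε] at hE3
  have hab := neg_abs_le (Real.log c0)
  have hab0 := abs_nonneg (Real.log c0)
  have hlj2 : 0.69 ≤ l := by rw [hll]; exact hl j
  rw [← hll]
  obtain ⟨s, hs⟩ : ∃ s : ℝ, s = ∑ i, Real.log (b i) := ⟨_, rfl⟩
  rw [← hs] at hlj hE3 ⊢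
  have h5 : |Real.log c0| ≤ 2 * |Real.log c0| * s := by nlinarith
  have h6 : (μ * K + 1 + 2 * |Real.log c0|) * s = μ * (K * s) + s + 2 * |Real.log c0| * s := by
    ring
  rw [h6]
  linarith

/-- the pair `t + e`, `t e` -/
theorem pair_meas (T η : ℝ) (hη : 0 < η) : ∃ c0 : ℝ, 0 < c0 ∧ ∀ t : ℝ, |t| ≤ T →
    Pool.Agent.W47.JL.Meas 2 ![t * Real.exp 1, t + Real.exp 1] (3 + η) c0 0 := by
  obtain ⟨c0, hc0, h⟩ := meas 2 ![1, -1, 1] (by simp) (|T| * Real.exp 1 + |T| + Real.exp 1) η hη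
  refine ⟨c0, hc0, fun t ht => ?_⟩
  have he := Real.exp_pos 1
  have ht' : |t| ≤ |T| := ht.trans (le_abs_self T)
  have h1 := h ![t * Real.exp 1, t + Real.exp 1] (by
    intro j
    fin_cases j
    · simp only [Fin.zero_eta, Fin.isValue, Matrix.cons_val_zero]
      rw [abs_mul, abs_of_pos he]
      nlinarith [abs_nonneg T]
    · simp only [Fin.mk_one, Fin.isValue, Matrix.cons_val_one]
      refine (abs_add_le _ _).trans ?_
      rw [abs_of_pos he]
      nlinarith [abs_nonneg T]) (by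
    rw [Fin.sum_univ_two]
    simp [-Real.exp_one_pow]
    ring)
  have e : ((2 : ℕ) : ℝ) + 1 + η = 3 + η := by norm_num
  rwa [e] at h1

end Pool.Agent.K3lead.A49.Multi
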